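import Mathlib
import Pool.Agent.H925R3.DD.Stubs

/-! Task QUAD: real quadratic fields embed in `ℚ_p` for `p ≡ -1 mod 4n`. -/

namespace Pool.Agent.H575DD

open Polynomial

theorem quad_jac (n p : ℕ) (hn : 0 < n) (hp2 : 2 < p) (hp : p.Prime) (h : 4 * n ∣ p + 1) :
    jacobiSym (n : ℤ) p = 1 := by
  have hodd : Odd p := hp.odd_of_ne_two (by omega)
  rw [jacobiSym.mod_right' n hodd]
  have hmod : p % (4 * n) = 4 * n - 1 := by
    obtain ⟨k, hk⟩ := h
    obtain ⟨k', rfl⟩ : ∃ k', k = k' + 1 := by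
      cases k with
      | zero => omega
      | succ k' => exact ⟨k', rfl⟩
    have h1 : p = (4 * n) * k' + (4 * n - 1) := by
      have h2 : 4 * n * (k' + 1) = 4 * n * k' + 4 * n := by ring
      rw [h2] at hk
      omega
    rw [h1, Nat.mul_add_mod]
    exact Nat.mod_eq_of_lt (by omega)
  rw [hmod]
  have hcast : ((4 * n - 1 : ℕ) : ℤ) = 4 * (n : ℤ) - 1 := by
    rw [Nat.cast_sub (by omega)]
    push_cast
    ring
  have h4 : jacobiSym (4 * (n : ℤ)) (4 * n - 1) = 1 := by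
    rw [jacobiSym.mod_left]
    have h5 : (4 * (n : ℤ)) % ((4 * n - 1 : ℕ) : ℤ) = 1 % ((4 * n - 1 : ℕ) : ℤ) := by
      rw [hcast]
      have h6 : ∀ y : ℤ, (y + 1) % y = 1 % y := fun y => Int.add_emod_left _ _
      have h7 := h6 (4 * (n : ℤ) - 1)
      rw [sub_add_cancel] at h7
      exact h7
    rw [h5, ← jacobiSym.mod_left, jacobiSym.one_left]
  have h2 : jacobiSym (4 : ℤ) (4 * n - 1) = 1 := by
    have h6 : (4 : ℤ) = 2 ^ 2 := by norm_num
    rw [h6]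
    apply jacobiSym.sq_one'
    have h7 : Nat.Coprime 2 (4 * n - 1) := by
      rw [Nat.coprime_two_left]
      exact ⟨2 * n - 1, by omega⟩
    exact_mod_cast h7
  rw [jacobiSym.mul_left, h2, one_mul] at h4
  exact h4

theorem quad_padic (n p : ℕ) [hpf : Fact p.Prime] (hn : 0 < n) (hp2 : 2 < p)
    (h : 4 * n ∣ p + 1) : ∃ z : ℚ_[p], z ^ 2 = (n : ℚ_[p]) := by
  have hp : p.Prime := hpf.out
  have hsq : IsSquare (((n : ℤ) : ZMod p)) :=
    ZMod.isSquare_of_jacobiSym_eq_one (quad_jac n p hn hp2 hp h)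
  obtain ⟨r, hr⟩ := hsq
  have hra : (((r.val : ℕ) : ℤ) : ZMod p) = r := by
    rw [Int.cast_natCast, ZMod.natCast_zmod_val]
  have ha : (p : ℤ) ∣ ((r.val : ℕ) : ℤ) ^ 2 - n := by
    rw [← ZMod.intCast_zmod_eq_zero_iff_dvd, Int.cast_sub, Int.cast_pow, hra, hr]
    ring
  have hpn : ¬ (p : ℤ) ∣ n := by
    intro h1
    have h2 : p ∣ n := by exact_mod_cast h1
    have h3 : p ∣ p + 1 := (h2.mul_left 4).trans h
    have h4 : p ∣ 1 := (Nat.dvd_add_right (dvd_refl p)).mp h3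
    have := Nat.le_of_dvd one_pos h4
    omega
  have hpr : Prime (p : ℤ) := Nat.prime_iff_prime_int.mp hp
  have ha0 : ¬ (p : ℤ) ∣ 2 * ((r.val : ℕ) : ℤ) := by
    intro h1
    rcases hpr.dvd_or_dvd h1 with h2 | h2
    · have h3 : p ∣ 2 := by exact_mod_cast h2
      have := Nat.le_of_dvd (by norm_num) h3
      omega
    · apply hpn
      have h3 : (p : ℤ) ∣ ((r.val : ℕ) : ℤ) ^ 2 := Dvd.dvd.pow h2 (by norm_num)
      have h4 := Int.dvd_sub h3 ha
      have h5 : ((r.val : ℕ) : ℤ) ^ 2 - (((r.val : ℕ) : ℤ) ^ 2 - n) = n := by ring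
      rw [h5] at h4
      exact h4
  set a : ℤ_[p] := ((((r.val : ℕ) : ℤ)) : ℤ_[p]) with hadef
  set F : Polynomial ℤ_[p] := X ^ 2 - C ((n : ℤ) : ℤ_[p]) with hF
  have h1 : F.eval a = (((((r.val : ℕ) : ℤ) ^ 2 - n : ℤ)) : ℤ_[p]) := by
    rw [hF, eval_sub, eval_pow, eval_X, eval_C, hadef]
    push_cast
    ring
  have h2 : F.derivative.eval a = ((2 * ((r.val : ℕ) : ℤ) : ℤ) : ℤ_[p]) := by
    rw [hF, derivative_sub, derivative_C, sub_zero, derivative_X_pow]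
    simp [hadef]
  have n1 : ‖F.eval a‖ < 1 := by
    rw [h1]
    exact (PadicInt.norm_int_lt_one_iff_dvd _).mpr ha
  have n2 : ‖F.derivative.eval a‖ = 1 := by
    rw [h2]
    exact le_antisymm (PadicInt.norm_le_one _)
      (not_lt.mp (fun h => ha0 ((PadicInt.norm_int_lt_one_iff_dvd _).mp h)))
  obtain ⟨z, hz, -⟩ := hensels_lemma (R := ℤ_[p]) (F := F) (a := a) (by
    have e1 : F.aeval a = F.eval a := by rw [coe_aeval_eq_eval]
    have e2 : F.derivative.aeval a = F.derivative.eval a := by rw [coe_aeval_eq_eval]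
    rw [e1, e2, n2, one_pow]
    exact n1)
  have hz' : z ^ 2 = ((n : ℤ) : ℤ_[p]) := by
    rw [coe_aeval_eq_eval, hF, eval_sub, eval_pow, eval_X, eval_C] at hz
    exact sub_eq_zero.mp hz
  refine ⟨(z : ℚ_[p]), ?_⟩
  have h3 : ((z ^ 2 : ℤ_[p]) : ℚ_[p]) = ((((n : ℤ) : ℤ_[p])) : ℚ_[p]) := by rw [hz']
  push_cast at h3
  exact h3

theorem quad : Pool.Agent.H925R3.DD.QUAD := by
  intro K _ _ n θ hn hθ hadj p _ hp2 hdiv
  obtain ⟨z, hz⟩ := quad_padic n p hn hp2 hdiv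
  have hne : (X ^ 2 - C (n : ℚ) : ℚ[X]) ≠ 0 := by
    apply Monic.ne_zero
    apply monic_X_pow_sub_C
    norm_num
  have hroot : aeval θ (X ^ 2 - C (n : ℚ) : ℚ[X]) = 0 := by
    rw [map_sub, map_pow, aeval_X, aeval_C, hθ]
    simp
  have hdvd : minpoly ℚ θ ∣ (X ^ 2 - C (n : ℚ) : ℚ[X]) := minpoly.dvd ℚ θ hroot
  have hmap : (X ^ 2 - C (n : ℚ) : ℚ[X]).map (algebraMap ℚ ℚ_[p]) =
      (X - C z) * (X - C (-z)) := by
    rw [Polynomial.map_sub, Polynomial.map_pow, map_X, map_C]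
    have h1 : (algebraMap ℚ ℚ_[p]) (n : ℚ) = z ^ 2 := by
      rw [hz]
      simp
    rw [h1, C_neg, C_pow]
    ring
  have hsplit : ((minpoly ℚ θ).map (algebraMap ℚ ℚ_[p])).Splits := by
    apply Splits.of_dvd (g := (X - C z) * (X - C (-z)))
    · exact (Splits.X_sub_C _).mul (Splits.X_sub_C _)
    · exact mul_ne_zero (X_sub_C_ne_zero _) (X_sub_C_ne_zero _)
    · rw [← hmap]
      exact Polynomial.map_dvd _ hdvd
  have hne2 : Nonempty (K →ₐ[ℚ] ℚ_[p]) :=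
    IntermediateField.nonempty_algHom_of_adjoin_splits (S := {θ}) (by
      intro s hs
      rw [Set.mem_singleton_iff.mp hs]
      exact ⟨(Algebra.IsIntegral.isIntegral θ), hsplit⟩) hadj
  exact ⟨hne2.some.toRingHom⟩

end Pool.Agent.H575DD
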